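import Mathlib
import Pool.Agent.H65.TBSturm
import Pool.Agent.H65.TBRoots

/-!
# The type B Poincaré polynomials `B_n` are real-rooted

`A_n` and `B_n` are given by the recursions of the problem file (Keel's recursion for `A_n`).
We prove that for every `n ≥ 1` all complex roots of `B_n` are real; moreover they are negative and
simple, and the roots of `B_n` strictly interlace those of `B_{n+1}`.

Idea of the proof.  Fix `x = -s < 0`.  The exponential generating series of the values `B_n(-s)`
satisfies a differential equation whose solution can be uniformised; its derivatives are, up to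
explicit positive factors, polynomials `p_k(v)` in an auxiliary variable `v > 0`, and `B_{k+1}(-s)`
is `p_k(1)` up to an explicit factor.  Rolle's theorem bounds the number of positive zeros of `p_k`
from below and a rule-of-signs argument bounds it from above; the two bounds are so close that
`B_{k+2}(-s) = 0` forces `B_{k+1}(-s) B_{k+3}(-s) < 0`.  So the `B_n` form a Sturm sequence on the
negative axis.
-/

namespace Pool.Agent.Results.MP_fe439f_co.RealRootedTypeB

open Polynomial Finset

/-- The two recursions of the problem file: `A` is the sequence of type A Poincaré polynomials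
(Keel's recursion), `B` is the sequence of type B Poincaré polynomials. -/
structure IsPoincare (A B : ℕ → ℤ[X]) : Prop where
  A_zero : A 0 = 1
  A_one : A 1 = 1
  A_rec : ∀ n, 2 ≤ n → A n = A (n - 1) +
    X * ∑ k ∈ Icc 1 (n - 2), ((n - 1).choose (k - 1) : ℤ[X]) * A (n - k) * A k
  B_zero : B 0 = 1
  B_rec : ∀ n, B (n + 1) = B n +
    X * ∑ i ∈ range n, (n.choose i : ℤ[X]) * B (n - i) * B i +
    X * ∑ m ∈ Icc 1 (n - 1),
      (n.choose (m - 1) : ℤ[X]) * 2 ^ (n + 1 - m) * A (n + 1 - m) * B m

section Existence

/-- type A, by recursion -/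
noncomputable def polyA : ℕ → ℤ[X]
  | 0 => 1
  | 1 => 1
  | n + 2 => polyA (n + 1) +
      X * ∑ k : Fin n, ((n + 1).choose k : ℤ[X]) * polyA (n + 1 - k) * polyA (k + 1)

/-- type B, by recursion -/
noncomputable def polyB : ℕ → ℤ[X]
  | 0 => 1
  | n + 1 => polyB n + X * ∑ i : Fin n, (n.choose i : ℤ[X]) * polyB (n - i) * polyB i +
      X * ∑ j : Fin (n - 1),
        (n.choose j : ℤ[X]) * 2 ^ (n - j) * polyA (n - j) * polyB (j + 1)

lemma sum_Icc_one {M : Type*} [AddCommMonoid M] (f : ℕ → M) (n : ℕ) :
    ∑ k ∈ Icc 1 n, f k = ∑ k ∈ range n, f (k + 1) := by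
  induction n with
  | zero => simp
  | succ n ih => rw [Finset.sum_Icc_succ_top (by omega), ih, Finset.sum_range_succ]

lemma isPoincare_poly : IsPoincare polyA polyB where
  A_zero := by rw [polyA]
  A_one := by rw [polyA]
  A_rec := by
    intro n hn
    obtain ⟨m, rfl⟩ : ∃ m, n = m + 2 := ⟨n - 2, by omega⟩
    rw [polyA, sum_Icc_one, Finset.sum_range]
    simp only [Nat.add_sub_cancel]
    congr 2
    refine Finset.sum_congr rfl fun k _ => ?_
    rw [show m + 2 - (↑k + 1) = m + 1 - ↑k by omega]
    rfl
  B_zero := by rw [polyB]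
  B_rec := by
    intro n
    rw [polyB, sum_Icc_one, Finset.sum_range, Finset.sum_range]
    congr 2
    refine Finset.sum_congr rfl fun k _ => ?_
    rw [show n + 1 - (↑k + 1) = n - ↑k by omega]
    rfl

lemma isPoincare_unique {A B A' B' : ℕ → ℤ[X]} (h : IsPoincare A B) (h' : IsPoincare A' B') :
    A = A' ∧ B = B' := by
  have hA : ∀ n, A n = A' n := by
    intro n
    induction n using Nat.strong_induction_on with
    | _ n ih =>
      rcases Nat.lt_or_ge n 2 with h2 | h2
      · interval_cases n
        · rw [h.A_zero, h'.A_zero]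
        · rw [h.A_one, h'.A_one]
      · rw [h.A_rec n h2, h'.A_rec n h2, ih (n - 1) (by omega)]
        congr 2
        refine Finset.sum_congr rfl fun k hk => ?_
        rw [Finset.mem_Icc] at hk
        rw [ih (n - k) (by omega), ih k (by omega)]
  have hB : ∀ n, B n = B' n := by
    intro n
    induction n using Nat.strong_induction_on with
    | _ n ih =>
      rcases n with _ | n
      · rw [h.B_zero, h'.B_zero]
      · rw [h.B_rec, h'.B_rec, ih n (by omega)]
        congr 2
        · congr 1
          refine Finset.sum_congr rfl fun k hk => ?_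
          rw [Finset.mem_range] at hk
          rw [ih (n - k) (by omega), ih k (by omega)]
        · refine Finset.sum_congr rfl fun k hk => ?_
          rw [Finset.mem_Icc] at hk
          rw [hA, ih k (by omega)]
  exact ⟨funext hA, funext hB⟩

end Existence

section Degrees

variable {A B : ℕ → ℤ[X]}

lemma natDegree_natCast_mul_le (c : ℕ) (p : ℤ[X]) : ((c : ℤ[X]) * p).natDegree ≤ p.natDegree := by
  have : (c : ℤ[X]) = C (c : ℤ) := by simp
  rw [this]
  exact natDegree_C_mul_le _ _

lemma natDegree_A (h : IsPoincare A B) (n : ℕ) : (A n).natDegree ≤ n - 2 := by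
  induction n using Nat.strong_induction_on with
  | _ n ih =>
    rcases Nat.lt_or_ge n 2 with h2 | h2
    · interval_cases n
      · rw [h.A_zero]; simp
      · rw [h.A_one]; simp
    · rw [h.A_rec n h2]
      refine (natDegree_add_le _ _).trans (max_le ?_ ?_)
      · exact (ih (n - 1) (by omega)).trans (by omega)
      · rcases Nat.eq_or_lt_of_le h2 with h3 | h3
        · subst h3; simp
        · refine (natDegree_mul_le).trans ?_
          rw [natDegree_X]
          have : (∑ k ∈ Icc 1 (n - 2), ((n - 1).choose (k - 1) : ℤ[X]) * A (n - k) * A k).natDegree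
              ≤ n - 3 := by
            refine natDegree_sum_le_of_forall_le _ _ fun k hk => ?_
            rw [Finset.mem_Icc] at hk
            rw [mul_assoc]
            refine (natDegree_natCast_mul_le _ _).trans ((natDegree_mul_le).trans ?_)
            have h1 := ih (n - k) (by omega)
            have h2 := ih k (by omega)
            omega
          omega

lemma natDegree_B (h : IsPoincare A B) (n : ℕ) : (B n).natDegree ≤ n - 1 := by
  induction n using Nat.strong_induction_on with
  | _ n ih =>
    rcases n with _ | n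
    · rw [h.B_zero]; simp
    · rw [h.B_rec]
      refine (natDegree_add_le _ _).trans (max_le ((natDegree_add_le _ _).trans (max_le ?_ ?_)) ?_)
      · exact (ih n (by omega)).trans (by omega)
      · rcases Nat.eq_zero_or_pos n with h3 | h3
        · subst h3; simp
        · refine (natDegree_mul_le).trans ?_
          rw [natDegree_X]
          have : (∑ i ∈ range n, (n.choose i : ℤ[X]) * B (n - i) * B i).natDegree ≤ n - 1 := by
            refine natDegree_sum_le_of_forall_le _ _ fun k hk => ?_
            rw [Finset.mem_range] at hk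
            rw [mul_assoc]
            refine (natDegree_natCast_mul_le _ _).trans ((natDegree_mul_le).trans ?_)
            have h1 := ih (n - k) (by omega)
            have h2 := ih k (by omega)
            omega
          omega
      · rcases Nat.lt_or_ge n 2 with h3 | h3
        · interval_cases n <;> simp
        · refine (natDegree_mul_le).trans ?_
          rw [natDegree_X]
          have : (∑ m ∈ Icc 1 (n - 1),
              (n.choose (m - 1) : ℤ[X]) * 2 ^ (n + 1 - m) * A (n + 1 - m) * B m).natDegree
                ≤ n - 2 := by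
            refine natDegree_sum_le_of_forall_le _ _ fun k hk => ?_
            rw [Finset.mem_Icc] at hk
            have e : (n.choose (k - 1) : ℤ[X]) * 2 ^ (n + 1 - k) * A (n + 1 - k) * B k =
                ((n.choose (k - 1) * 2 ^ (n + 1 - k) : ℕ) : ℤ[X]) * (A (n + 1 - k) * B k) := by
              push_cast; ring
            rw [e]
            refine (natDegree_natCast_mul_le _ _).trans ((natDegree_mul_le).trans ?_)
            have h1 := natDegree_A h (n + 1 - k)
            have h2 := ih k (by omega)
            omega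
          omega

lemma coeff_B (h : IsPoincare A B) (n : ℕ) : (B (n + 1)).coeff n = 1 := by
  induction n with
  | zero =>
    rw [h.B_rec, h.B_zero]; simp
  | succ n ih =>
    rw [h.B_rec, coeff_add, coeff_add, coeff_X_mul, coeff_X_mul,
      coeff_eq_zero_of_natDegree_lt (lt_of_le_of_lt (natDegree_B h (n + 1)) (by omega)),
      finsetSum_coeff, finsetSum_coeff, Finset.sum_range_succ']
    have e1 : ∀ k ∈ range n, (((n + 1).choose (k + 1) : ℤ[X]) * B (n + 1 - (k + 1)) *
        B (k + 1)).coeff n = 0 := by
      intro k hk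
      rw [Finset.mem_range] at hk
      apply coeff_eq_zero_of_natDegree_lt
      rw [mul_assoc]
      refine lt_of_le_of_lt ((natDegree_natCast_mul_le _ _).trans (natDegree_mul_le)) ?_
      have h1 := natDegree_B h (n + 1 - (k + 1))
      have h2 := natDegree_B h (k + 1)
      omega
    have e2 : ∀ k ∈ Icc 1 (n + 1 - 1), (((n + 1).choose (k - 1) : ℤ[X]) * 2 ^ (n + 1 + 1 - k) *
        A (n + 1 + 1 - k) * B k).coeff n = 0 := by
      intro k hk
      rw [Finset.mem_Icc] at hk
      apply coeff_eq_zero_of_natDegree_lt
      have e : ((n + 1).choose (k - 1) : ℤ[X]) * 2 ^ (n + 1 + 1 - k) * A (n + 1 + 1 - k) * B k =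
          (((n + 1).choose (k - 1) * 2 ^ (n + 1 + 1 - k) : ℕ) : ℤ[X]) *
            (A (n + 1 + 1 - k) * B k) := by
        push_cast; ring
      rw [e]
      refine lt_of_le_of_lt ((natDegree_natCast_mul_le _ _).trans (natDegree_mul_le)) ?_
      have h1 := natDegree_A h (n + 1 + 1 - k)
      have h2 := natDegree_B h k
      omega
    rw [Finset.sum_eq_zero e1, Finset.sum_eq_zero e2, h.B_zero]
    simp [ih]

lemma B_eval_zero (h : IsPoincare A B) (n : ℕ) : (B n).eval 0 = 1 := by
  induction n with
  | zero => rw [h.B_zero]; simp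
  | succ n ih => rw [h.B_rec]; simp [ih]

end Degrees

section Main

variable {A B : ℕ → ℤ[X]}

/-- evaluation at a real number turns the recursions into the numerical ones -/
lemma rec_aeval (h : IsPoincare A B) (x : ℝ) :
    Pool.Agent.H65.TB.Rec x (fun n => aeval x (A n)) (fun n => aeval x (B n)) where
  hA0 := by simp [h.A_zero]
  hA1 := by simp [h.A_one]
  hA := by
    intro n hn
    rw [h.A_rec n hn]
    simp [map_sum]
  hB0 := by simp [h.B_zero]
  hB := by
    intro n
    rw [h.B_rec n]
    have e2 : (aeval x) (2 : ℤ[X]) = 2 := by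
      have := map_ofNat (aeval x : ℤ[X] →ₐ[ℤ] ℝ) 2
      simpa using this
    simp only [map_add, map_mul, map_sum, map_natCast, map_pow, aeval_X, e2]

/-- the shifted sequence over the reals -/
noncomputable def realB (B : ℕ → ℤ[X]) (n : ℕ) : ℝ[X] := (B (n + 1)).map (Int.castRingHom ℝ)

lemma realB_eval (B : ℕ → ℤ[X]) (n : ℕ) (x : ℝ) : (realB B n).eval x = aeval x (B (n + 1)) := by
  unfold realB
  rw [eval_map, aeval_def]
  rfl

lemma sturmSeq (h : IsPoincare A B) : Pool.Agent.H65.TB.SturmSeq (realB B) where
  monic := by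
    intro n
    have h1 : (B (n + 1)).natDegree ≤ n := natDegree_B h (n + 1)
    exact (monic_of_natDegree_le_of_coeff_eq_one n h1 (coeff_B h n)).map _
  natDegree := by
    intro n
    have h1 : (B (n + 1)).natDegree ≤ n := natDegree_B h (n + 1)
    have h2 : (B (n + 1)).natDegree = n := by
      refine le_antisymm h1 (le_natDegree_of_ne_zero ?_)
      rw [coeff_B h n]; exact one_ne_zero
    unfold realB
    rw [(monic_of_natDegree_le_of_coeff_eq_one n h1 (coeff_B h n)).natDegree_map, h2]
  pos := by
    intro n
    have h1 := B_eval_zero h (n + 1)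
    unfold realB
    rw [eval_zero_map, h1]
    simp
  sturm := by
    intro n x hx h0
    rw [realB_eval] at h0 ⊢
    rw [realB_eval]
    obtain ⟨s, rfl⟩ : ∃ s, x = -s := ⟨-x, by ring⟩
    have hs : 0 < s := by linarith
    have hr := rec_aeval h (-s)
    have k0 := hr.eval_one hs n
    have k1 := hr.eval_one hs (n + 1)
    have k2 := hr.eval_one hs (n + 2)
    rw [h0, mul_zero] at k1
    have := Pool.Agent.H65.TB.sturm hs n k1
    rw [k0, k2] at this
    have e : (-1 : ℝ) ^ n * (1 + s) ^ (2 * n) * (aeval (-s) (B (n + 1))) *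
        ((-1) ^ (n + 2) * (1 + s) ^ (2 * (n + 2)) * (aeval (-s) (B (n + 2 + 1)))) =
        (1 + s) ^ (4 * n + 4) * ((aeval (-s) (B (n + 1))) * (aeval (-s) (B (n + 2 + 1)))) := by
      have e1 : (-1 : ℝ) ^ n * (-1) ^ (n + 2) = 1 := by
        rw [← pow_add, show n + (n + 2) = 2 * (n + 1) by ring, pow_mul]; simp
      calc _ = ((-1 : ℝ) ^ n * (-1) ^ (n + 2)) * ((1 + s) ^ (2 * n) * (1 + s) ^ (2 * (n + 2))) *
            ((aeval (-s) (B (n + 1))) * (aeval (-s) (B (n + 2 + 1)))) := by ring
        _ = _ := by rw [e1, one_mul, ← pow_add]; congr 2; ring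
    rw [e] at this
    have hp : 0 < (1 + s) ^ (4 * n + 4) := by positivity
    by_contra hc
    have := mul_nonneg hp.le (not_lt.mp hc)
    linarith

/-- **Theorem.** The recursions of the problem file determine the polynomials `A_n`, `B_n`
uniquely, and for every `n ≥ 1` all complex roots of `B_n` are real.  Moreover `B_{n+1}` is the
product of `n` linear factors `X - r n i` with `r n i < 0`, and
`r (n+1) (i+1) < r n i < r (n+1) i` (simple negative roots, strict interlacing). -/
theorem result :
    (∃ A B : ℕ → ℤ[X], IsPoincare A B) ∧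
    (∀ A B A' B' : ℕ → ℤ[X], IsPoincare A B → IsPoincare A' B' → A = A' ∧ B = B') ∧
    ∀ A B : ℕ → ℤ[X], IsPoincare A B →
      (∀ n, 1 ≤ n → ∀ z : ℂ, aeval z (B n) = 0 → z.im = 0) ∧
      ∃ r : ℕ → ℕ → ℝ,
        (∀ n, (B (n + 1)).map (Int.castRingHom ℝ) = ∏ i ∈ range n, (X - C (r n i))) ∧
        (∀ n, ∀ i < n, r n i < 0) ∧
        (∀ n, ∀ i < n, r (n + 1) (i + 1) < r n i ∧ r n i < r (n + 1) i) := by
  refine ⟨⟨polyA, polyB, isPoincare_poly⟩, fun A B A' B' h h' => isPoincare_unique h h', ?_⟩
  intro A B h
  obtain ⟨r, h1, h2, h3⟩ := (sturmSeq h).roots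
  refine ⟨?_, r, h1, h2, h3⟩
  intro n hn z hz
  obtain ⟨m, rfl⟩ : ∃ m, n = m + 1 := ⟨n - 1, by omega⟩
  have e : (B (m + 1)).map (Int.castRingHom ℂ) = ∏ i ∈ range m, (X - C ((r m i : ℝ) : ℂ)) := by
    have e1 : (B (m + 1)).map (Int.castRingHom ℂ) =
        ((B (m + 1)).map (Int.castRingHom ℝ)).map (algebraMap ℝ ℂ) := by
      rw [Polynomial.map_map]; congr 1
    rw [e1]
    have e2 := h1 m
    unfold realB at e2
    rw [e2, Polynomial.map_prod]
    simp
  have hz' : ((B (m + 1)).map (Int.castRingHom ℂ)).eval z = 0 := by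
    rw [eval_map]
    rw [aeval_def] at hz
    exact hz
  rw [e, eval_prod, Finset.prod_eq_zero_iff] at hz'
  obtain ⟨i, _, hi⟩ := hz'
  have : z = ((r m i : ℝ) : ℂ) := by
    simpa [sub_eq_zero] using hi
  rw [this]; simp

end Main

end Pool.Agent.Results.MP_fe439f_co.RealRootedTypeB
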